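import Pool.Agent.H58.CT.Targets

/-!
# Passing to a subalgebra (row SBA of ct_modules)
-/

set_option autoImplicit false

namespace Pool.Agent.H88.CT

open Pool.Agent.H58.CT

/-- The subalgebra on a subuniverse. -/
@[reducible] def subAlg {𝒞 : Cln} {A : Type} [Alg 𝒞 A] {M : Set A} (hM : Sub 𝒞 M) : Alg 𝒞 M where
  int {I} _ t x := ⟨Alg.int t (fun i => (x i : A)), hM I t _ fun i => (x i).2⟩
  int_pr i x := Subtype.ext (Alg.int_pr i _)
  int_comp t s x := Subtype.ext (Alg.int_comp t s _)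
  idem t a := Subtype.ext (Alg.idem t (a : A))

theorem pf_SBA : T_SBA := by
  intro 𝒞 A _ _ p _ R M hCC hR hsh hM hne hr
  let _ : Alg 𝒞 M := subAlg hM
  have hcard : Nat.card M < Nat.card A := by
    have h1 : (M : Set A).ncard < (Set.univ : Set A).ncard :=
      Set.ncard_lt_ncard (Set.ssubset_univ_iff.2 hne) (Set.toFinite _)
    rwa [Set.ncard_univ, ← Nat.card_coe_set_eq] at h1
  obtain ⟨r, hrR, hrM⟩ := hr
  obtain ⟨b, hb⟩ := hCC M {s : ZMod p → M | (fun j => (s j : A)) ∈ R} hcard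
    ⟨fun j => ⟨r j, hrM j⟩, hrR⟩
    (fun I _ t x hx => hR I t (fun i => fun j => ((x i j : M) : A)) hx)
    (fun s hs => hsh _ hs)
  exact ⟨(b : A), hb⟩

end Pool.Agent.H88.CT
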